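import Pool.Agent.Helper236.Cycle

/-!
# MP_1f7bca_co: a binary matroid whose cycle ideal is generated in degree 8

The dual of the matroid obtained from `PG(3, 2)` by deleting one point has 16 cycles, and its cycle
ideal contains no nonzero polynomial of degree less than 8.
-/

set_option autoImplicit false

namespace Pool.Agent.Results.MP_1f7bca_co.PuncturedSpace

open Set Module Submodule Pool.Agent.Helper236

/-! ### Definitions -/

/-- A cycle of `M` is a (possibly empty) disjoint union of circuits of `M`. -/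
def IsCycle {α : Type} [DecidableEq α] (M : Matroid α) (D : Finset α) : Prop :=
  ∃ 𝒞 : Finset (Finset α), (∀ C ∈ 𝒞, M.IsCircuit (C : Set α)) ∧
    (∀ C ∈ 𝒞, ∀ C' ∈ 𝒞, C ≠ C' → Disjoint C C') ∧ D = 𝒞.biUnion id

/-- The cycle ideal of `M`: the kernel of the homomorphism of polynomial rings that maps the
variable of a cycle `D` to `s` times the product of the variables `t e` for `e ∈ D`; the variable
`s` is `X none` and the variable `t e` is `X (some e)`. -/
noncomputable def cycleIdeal (K : Type) [Field K] {α : Type} [DecidableEq α] (M : Matroid α) :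
    Ideal (MvPolynomial {D : Finset α // IsCycle M D} K) :=
  RingHom.ker (MvPolynomial.aeval (R := K)
    (fun D : {D : Finset α // IsCycle M D} =>
      (MvPolynomial.X none * ∏ e ∈ D.1, MvPolynomial.X (some e) : MvPolynomial (Option α) K)))

/-- `μ(M)`: the least `d` such that the cycle ideal is generated by homogeneous polynomials of
degree at most `d`; this is the largest degree of an element of a minimal homogeneous generating
set of the cycle ideal. -/
noncomputable def mu (K : Type) [Field K] {α : Type} [DecidableEq α] (M : Matroid α) : ℕ∞ :=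
  ⨅ d ∈ {d : ℕ | ∃ G : Set (MvPolynomial {D : Finset α // IsCycle M D} K),
    (∀ g ∈ G, ∃ i ≤ d, g.IsHomogeneous i) ∧ Ideal.span G = cycleIdeal K M}, (d : ℕ∞)

/-- `M` is connected: any two elements are in a common circuit. -/
def IsConnected {α : Type} (M : Matroid α) : Prop :=
  ∀ e ∈ M.E, ∀ f ∈ M.E, e ≠ f → ∃ C, M.IsCircuit C ∧ e ∈ C ∧ f ∈ C

/-- `N` is obtained from `M` by deletions, series contractions and coloop contractions. -/
inductive RestrictedMinor {α : Type} : Matroid α → Matroid α → Prop
  | refl (M : Matroid α) : RestrictedMinor M M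
  | delete {M N : Matroid α} (e : α) : e ∈ M.E → RestrictedMinor (M.delete {e}) N →
      RestrictedMinor M N
  | series {M N : Matroid α} (e f : α) : e ≠ f → M.IsCocircuit {e, f} →
      RestrictedMinor (M.contract {e}) N → RestrictedMinor M N
  | coloop {M N : Matroid α} (e : α) : M.IsColoop e → RestrictedMinor (M.contract {e}) N →
      RestrictedMinor M N

/-- `M` has an `M(K_5)^*`-restricted minor. -/
def HasK5DualRestrictedMinor {α : Type} (M : Matroid α) : Prop :=
  ∃ N K, RestrictedMinor M N ∧ IsCompleteGraphMatroid 5 K ∧ Iso N K✶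

/-! ### The punctured projective space -/

/-- the vector space -/
abbrev V : Type := Fin 4 → ZMod 2

/-- the standard bilinear form -/
def dot (e u : V) : ZMod 2 := e 0 * u 0 + e 1 * u 1 + e 2 * u 2 + e 3 * u 3

/-- the deleted point -/
def p₀ : V := ![0, 0, 0, 1]

/-- the set of points -/
def pts : Finset V := Finset.univ.filter fun e => e ≠ 0 ∧ e ≠ p₀

/-- the complement of a hyperplane -/
def D (u : V) : Finset V := pts.filter fun e => dot e u = 1

theorem dot_add_left (e f u : V) : dot (e + f) u = dot e u + dot f u := by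
  simp only [dot, Pi.add_apply]
  ring

theorem dot_add_right (e u w : V) : dot e (u + w) = dot e u + dot e w := by
  simp only [dot, Pi.add_apply]
  ring

/-- the functional `dot · u` -/
def dotL (u : V) : V →ₗ[ZMod 2] ZMod 2 where
  toFun e := dot e u
  map_add' e f := dot_add_left e f u
  map_smul' c e := by simp only [dot, Pi.smul_apply, smul_eq_mul, RingHom.id_apply]; ring

theorem eq_dotL (g : V →ₗ[ZMod 2] ZMod 2) : ∃ u, g = dotL u := by
  refine ⟨fun i => g (Pi.single i 1), ?_⟩
  apply LinearMap.pi_ext
  intro i x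
  have hx : (Pi.single i x : V) = x • Pi.single i 1 := by
    rw [← Pi.single_smul, smul_eq_mul, mul_one]
  rw [hx, map_smul, map_smul]
  congr 1
  fin_cases i <;> simp [dotL, dot]

theorem zmod_cases (x : ZMod 2) : x = 0 ∨ x = 1 := by
  revert x
  decide

theorem fact_nonempty : ∀ u : V, u ≠ 0 → (D u).Nonempty := by decide +kernel

theorem fact_antichain : ∀ u w : V, u ≠ 0 → D u ⊆ D w → u = w := by decide +kernel

theorem fact_two : ∀ e f : V, e ≠ 0 → f ≠ 0 → ∃ u, dot e u = 1 ∧ dot f u = 1 := by
  decide +kernel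

theorem fact_zero : D 0 = ∅ := by decide +kernel

theorem fact_card : pts.card = 14 := by decide +kernel

theorem mem_pts {e : V} : e ∈ pts ↔ e ≠ 0 ∧ e ≠ p₀ := by
  simp [pts]

theorem mem_D {e u : V} : e ∈ D u ↔ e ∈ pts ∧ dot e u = 1 := by
  simp [D]

/-- the matroid of the points -/
noncomputable def N₀ : Matroid V := linMatroid (ZMod 2) id (pts : Set V) (Finset.finite_toSet _)

/-- the counterexample -/
noncomputable def M₀ : Matroid V := N₀✶

theorem N₀_E : N₀.E = (pts : Set V) := rfl

theorem M₀_E : M₀.E = (pts : Set V) := rfl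

instance N₀_finite : N₀.Finite := ⟨Finset.finite_toSet _⟩

theorem N₀_rep : Rep (ZMod 2) N₀ (id : V → V) := linMatroid_rep _ _ _

theorem N₀_simple : IsSimple N₀ := by
  intro e he f hf
  rw [N₀_rep _ (by rintro x (rfl | rfl) <;> assumption)]
  have he0 : e ≠ 0 := (mem_pts.1 he).1
  have hf0 : f ≠ 0 := (mem_pts.1 hf).1
  by_cases hef : e = f
  · subst hef
    simpa using he0
  · rw [linearIndepOn_pair_iff _ hef he0]
    intro c hc
    rcases zmod_cases c with rfl | rfl
    · rw [zero_smul] at hc
      exact hf0 hc.symm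
    · rw [one_smul] at hc
      exact hef hc

/-- the complement of `X` is nonspanning iff `X` contains the complement of a hyperplane -/
theorem nonspanning_iff {X : Set V} :
    ¬ N₀.Spanning (N₀.E \ X) ↔ ∃ u : V, u ≠ 0 ∧ (D u : Set V) ⊆ X := by
  have hsub : N₀.E \ X ⊆ N₀.E := sdiff_subset
  rw [Matroid.spanning_iff_closure_eq hsub]
  constructor
  · intro hne
    obtain ⟨e, heE, he⟩ : ∃ e ∈ N₀.E, e ∉ N₀.closure (N₀.E \ X) := by
      by_contra hcon
      push Not at hcon
      exact hne (Subset.antisymm (N₀.closure_subset_ground _) hcon)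
    rw [N₀_rep.mem_closure_iff hsub heE] at he
    obtain ⟨g, hg1, hg2⟩ := Submodule.exists_le_ker_of_notMem he
    obtain ⟨u, rfl⟩ := eq_dotL g
    refine ⟨u, ?_, ?_⟩
    · rintro rfl
      apply hg1
      change dot e 0 = 0
      simp [dot]
    · intro f hf
      rw [Finset.mem_coe, mem_D] at hf
      by_contra hfX
      have h1 : f ∈ span (ZMod 2) (id '' (N₀.E \ X)) :=
        subset_span ⟨f, ⟨hf.1, hfX⟩, rfl⟩
      have h2 : dot f u = 0 := hg2 h1
      rw [hf.2] at h2
      exact absurd h2 (by decide)
  · rintro ⟨u, hu, hDX⟩ heq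
    obtain ⟨e, he⟩ := fact_nonempty u hu
    rw [mem_D] at he
    have heE : e ∈ N₀.E := he.1
    have h1 : e ∈ N₀.closure (N₀.E \ X) := by
      rw [heq]
      exact heE
    rw [N₀_rep.mem_closure_iff hsub heE] at h1
    have hle : span (ZMod 2) (id '' (N₀.E \ X)) ≤ LinearMap.ker (dotL u) := by
      rw [span_le]
      rintro _ ⟨f, hf, rfl⟩
      change dot f u = 0
      rcases zmod_cases (dot f u) with h | h
      · exact h
      · exact absurd (hDX (mem_D.2 ⟨hf.1, h⟩)) hf.2
    have h2 : dot e u = 0 := hle h1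
    rw [he.2] at h2
    exact absurd h2 (by decide)

theorem isCircuit_iff {C : Set V} : M₀.IsCircuit C ↔ ∃ u : V, u ≠ 0 ∧ C = D u := by
  have h1 : M₀.IsCircuit C ↔ N₀.IsCocircuit C := Iff.rfl
  rw [h1, Matroid.isCocircuit_iff_minimal_compl_nonspanning]
  simp only [nonspanning_iff]
  constructor
  · intro hC
    obtain ⟨u, hu, huC⟩ := hC.prop
    exact ⟨u, hu, Subset.antisymm (hC.le_of_le ⟨u, hu, Subset.rfl⟩ huC) huC⟩
  · rintro ⟨u, hu, rfl⟩
    refine ⟨⟨u, hu, Subset.rfl⟩, ?_⟩
    rintro X ⟨w, hw, hwX⟩ hXu
    have h2 : D w ⊆ D u := fun e he => hXu (hwX he)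
    have h3 := fact_antichain w u hw h2
    subst h3
    exact hwX

theorem connected : IsConnected M₀ := by
  intro e he f hf _
  have he0 : e ≠ 0 := (mem_pts.1 he).1
  have hf0 : f ≠ 0 := (mem_pts.1 hf).1
  obtain ⟨u, h1, h2⟩ := fact_two e f he0 hf0
  refine ⟨D u, isCircuit_iff.2 ⟨u, ?_, rfl⟩, mem_D.2 ⟨he, h1⟩, mem_D.2 ⟨hf, h2⟩⟩
  rintro rfl
  revert h1
  simp [dot]

theorem D_union {u w : V} (h : Disjoint (D u) (D w)) : D u ∪ D w = D (u + w) := by
  ext e
  rw [Finset.mem_union, mem_D, mem_D, mem_D, dot_add_right]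
  rcases zmod_cases (dot e u) with h1 | h1 <;> rcases zmod_cases (dot e w) with h2 | h2
  · rw [h1, h2]
    simp
  · rw [h1, h2]
    simp
  · rw [h1, h2]
    simp
  · by_cases he : e ∈ pts
    · exact absurd (Finset.disjoint_left.1 h (mem_D.2 ⟨he, h1⟩) (mem_D.2 ⟨he, h2⟩)) id
    · simp [he]

theorem isCycle_iff {X : Finset V} : IsCycle M₀ X ↔ ∃ u, X = D u := by
  classical
  constructor
  · rintro ⟨𝒞, h1, h2, rfl⟩
    induction 𝒞 using Finset.induction_on with
    | empty => exact ⟨0, by rw [fact_zero]; rfl⟩
    | insert C 𝒞 hC ih =>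
      obtain ⟨w, hw⟩ := ih (fun C' hC' => h1 C' (Finset.mem_insert_of_mem hC'))
        (fun C' hC' C'' hC'' => h2 C' (Finset.mem_insert_of_mem hC') C''
          (Finset.mem_insert_of_mem hC''))
      obtain ⟨u, -, hu⟩ := isCircuit_iff.1 (h1 C (Finset.mem_insert_self _ _))
      have hu' : C = D u := Finset.coe_injective hu
      refine ⟨u + w, ?_⟩
      rw [Finset.biUnion_insert, hw, id_eq, hu']
      apply D_union
      rw [← hw, ← hu', Finset.disjoint_biUnion_right]
      intro C' hC'
      apply h2 C (Finset.mem_insert_self _ _) C' (Finset.mem_insert_of_mem hC')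
      rintro rfl
      exact hC hC'
  · rintro ⟨u, rfl⟩
    by_cases hu : u = 0
    · subst hu
      exact ⟨∅, by simp, by simp, by rw [fact_zero]; rfl⟩
    · refine ⟨{D u}, ?_, ?_, ?_⟩
      · intro C hC
        rw [Finset.mem_singleton] at hC
        subst hC
        exact isCircuit_iff.2 ⟨u, hu, rfl⟩
      · intro C hC C' hC' hne
        rw [Finset.mem_singleton] at hC hC'
        exact absurd (hC.trans hC'.symm) hne
      · simp

/-! ### The matroid is binary -/

/-- the vectors of the row space -/
def row : V →ₗ[ZMod 2] (V → ZMod 2) where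
  toFun u e := if e ∈ pts then dot e u else 0
  map_add' u w := by
    ext e
    simp only [Pi.add_apply]
    split_ifs
    · exact dot_add_right e u w
    · rw [add_zero]
  map_smul' c u := by
    ext e
    simp only [Pi.smul_apply, smul_eq_mul, RingHom.id_apply]
    split_ifs
    · simp only [dot, Pi.smul_apply, smul_eq_mul]
      ring
    · rw [mul_zero]

theorem row_eq_one {u e : V} : row u e = 1 ↔ e ∈ D u := by
  change (if e ∈ pts then dot e u else 0) = 1 ↔ _
  rw [mem_D]
  split_ifs with h
  · simp [h]
  · simp [h]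

theorem indep_iff {I : Set V} (hI : I ⊆ M₀.E) :
    M₀.Indep I ↔ ∀ u : V, u ≠ 0 → ¬ (D u : Set V) ⊆ I := by
  have h1 : M₀.Indep I ↔ N₀.Coindep I := Iff.rfl
  rw [h1, Matroid.coindep_iff_compl_spanning (M := N₀) hI, ← not_iff_not, nonspanning_iff]
  push Not
  rfl

theorem fact_three : ∀ u : V, u ≠ 0 → 3 ≤ (D u).card := by decide +kernel

theorem M₀_simple : IsSimple M₀ := by
  intro e he f hf
  have hsub : ({e, f} : Set V) ⊆ M₀.E := by
    rintro x (rfl | rfl) <;> assumption
  rw [indep_iff hsub]
  intro u hu hle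
  have h1 : D u ⊆ {e, f} := by
    intro x hx
    have h2 := hle hx
    simpa using h2
  have h3 := Finset.card_le_card h1
  have h4 := Finset.card_le_two (a := e) (b := f)
  have h5 := fact_three u hu
  omega

theorem M₀_rep : Rep (ZMod 2) M₀ (fun e : V =>
    (LinearMap.range row).mkQ (Pi.single e (1 : ZMod 2))) := by
  classical
  intro I hI
  rw [indep_iff hI]
  constructor
  · intro h
    -- the unit vectors are independent
    have h0 : LinearIndependent (ZMod 2) (fun e : I => (Pi.single (e : V) (1 : ZMod 2) : V → ZMod 2)) := by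
      have h1 := (Pi.basisFun (ZMod 2) V).linearIndependent
      have h2 := h1.comp (fun e : I => (e : V)) Subtype.val_injective
      convert h2 using 1
      ext e x
      simp
    refine h0.map ?_
    rw [Submodule.ker_mkQ, Submodule.disjoint_def]
    rintro x hx ⟨u, rfl⟩
    by_contra hne
    have hu : u ≠ 0 := by
      rintro rfl
      exact hne (map_zero _)
    apply h u hu
    intro e he
    by_contra heI
    -- the coordinate `e` vanishes on the span
    have hle : span (ZMod 2) (range fun e : I => (Pi.single (e : V) (1 : ZMod 2) : V → ZMod 2)) ≤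
        LinearMap.ker (LinearMap.proj e : (V → ZMod 2) →ₗ[ZMod 2] ZMod 2) := by
      rw [span_le]
      rintro _ ⟨f, rfl⟩
      change (Pi.single (f : V) (1 : ZMod 2) : V → ZMod 2) e = 0
      rw [Pi.single_eq_of_ne]
      rintro rfl
      exact heI f.2
    have h3 : row u e = 0 := hle hx
    rw [row_eq_one.2 he] at h3
    exact absurd h3 (by decide)
  · intro h u hu hDI
    have h1 : LinearIndepOn (ZMod 2) (fun e : V =>
        (LinearMap.range row).mkQ (Pi.single e (1 : ZMod 2))) (D u : Set V) := h.mono hDI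
    rw [linearIndepOn_finset_iff] at h1
    obtain ⟨e, he⟩ := fact_nonempty u hu
    have h2 := h1 (fun _ => 1) (by
      simp only [one_smul]
      rw [← map_sum, Submodule.mkQ_apply, Submodule.Quotient.mk_eq_zero]
      refine ⟨u, ?_⟩
      ext f
      rw [Finset.sum_apply]
      simp only [Pi.single_apply, Finset.sum_ite_eq]
      split_ifs with hf
      · exact row_eq_one.2 hf
      · rcases zmod_cases (row u f) with h3 | h3
        · exact h3
        · exact absurd (row_eq_one.1 h3) hf) e he
    exact absurd h2 (by decide)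

theorem representable_of_rep {F α W : Type} [Field F] [AddCommGroup W] [Module F W]
    [FiniteDimensional F W] {M : Matroid α} {v : α → W} (h : Rep F M v) : Representable F M := by
  let e : W ≃ₗ[F] (Fin (finrank F W) → F) :=
    LinearEquiv.ofFinrankEq _ _ (by rw [Module.finrank_fin_fun])
  exact ⟨finrank F W, e ∘ v, h.comp_injective e.toLinearMap e.injective⟩

/-! ### Restricted minors -/

theorem delete_isMinor {α : Type} (M : Matroid α) (X : Set α) : (M.delete X).IsMinor M :=
  ⟨∅, X, by rw [Matroid.contract_empty]⟩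

theorem contract_isMinor {α : Type} (M : Matroid α) (X : Set α) : (M.contract X).IsMinor M :=
  ⟨X, ∅, by rw [Matroid.delete_empty]⟩

theorem dual_isMinor {α : Type} {M N : Matroid α} (h : N.IsMinor M) : N✶.IsMinor M✶ := by
  obtain ⟨C, X, rfl⟩ := h
  rw [Matroid.dual_contract_delete]
  exact (contract_isMinor _ _).trans (delete_isMinor _ _)

theorem isMinor_of_restricted {α : Type} {M N : Matroid α} (h : RestrictedMinor M N) :
    N.IsMinor M := by
  induction h with
  | refl M => exact Matroid.IsMinor.refl
  | @delete M N e he _ ih => exact ih.trans (delete_isMinor M {e})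
  | @series M N e f _ _ _ ih => exact ih.trans (contract_isMinor M {e})
  | @coloop M N e _ _ ih => exact ih.trans (contract_isMinor M {e})

theorem eRank_le_of_rep {F α W : Type} [Field F] [AddCommGroup W] [Module F W]
    [FiniteDimensional F W] {M : Matroid α} {v : α → W} (h : Rep F M v) (hf : M.E.Finite) :
    M.eRank ≤ finrank F W := by
  obtain ⟨B, hB⟩ := M.exists_isBase
  rw [← hB.encard_eq_eRank]
  have h1 := (h B hB.subset_ground).1 hB.indep
  have hBf := hf.subset hB.subset_ground
  rw [← hBf.cast_ncard_eq, Nat.cast_le, ← finrank_span_of_linearIndepOn h1 hBf]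
  exact Submodule.finrank_le _

/-- a restricted minor different from `M₀` has a dual of rank at most three -/
theorem dual_rank {N : Matroid V} (h : RestrictedMinor M₀ N) (hne : N ≠ M₀) :
    N✶.eRank ≤ 3 := by
  have key : ∃ e ∈ pts, N.IsMinor (M₀.delete {e}) := by
    cases h with
    | refl => exact absurd rfl hne
    | delete e he h => exact ⟨e, he, isMinor_of_restricted h⟩
    | series e f hef hc _ =>
      exfalso
      have h1 : N₀.IsCircuit {e, f} := by
        have : M₀✶.IsCircuit {e, f} := hc
        rwa [M₀, Matroid.dual_dual] at this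
      have h2 := h1.subset_ground
      exact h1.not_indep (N₀_simple e (h2 (by simp)) f (h2 (by simp)))
    | coloop e hc _ =>
      exfalso
      have h1 : N₀.IsLoop e := by
        have : M₀✶.IsLoop e := hc
        rwa [M₀, Matroid.dual_dual] at this
      have h2 := N₀_simple e h1.mem_ground e h1.mem_ground
      rw [pair_eq_singleton, Matroid.indep_singleton] at h2
      exact h2.not_isLoop h1
  obtain ⟨e, he, hN⟩ := key
  have h1 : N✶.IsMinor (N₀.contract {e}) := by
    have h2 := dual_isMinor hN
    rwa [Matroid.dual_delete, M₀, Matroid.dual_dual] at h2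
  obtain ⟨C, X, hC, hX, hCX, hNeq⟩ := h1.exists_eq_contract_delete_disjoint
  have hrep1 := N₀_rep.minor {e} ∅ (Set.singleton_subset_iff.2 he)
  rw [Matroid.delete_empty] at hrep1
  have hrep2 := hrep1.minor C X hC
  rw [← hNeq] at hrep2
  have hfin : N✶.E.Finite := by
    rw [hNeq]
    refine (Finset.finite_toSet pts).subset ?_
    exact sdiff_subset.trans (sdiff_subset.trans sdiff_subset)
  refine (eRank_le_of_rep hrep2 hfin).trans ?_
  have h4 : finrank (ZMod 2) (V ⧸ span (ZMod 2) (id '' {e})) ≤ 3 := by
    have h5 := Submodule.finrank_quotient_add_finrank (span (ZMod 2) (id '' ({e} : Set V)))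
    rw [Module.finrank_fin_fun] at h5
    have h6 : finrank (ZMod 2) (span (ZMod 2) (id '' ({e} : Set V))) = 1 := by
      rw [image_singleton]
      exact finrank_span_singleton (mem_pts.1 he).1
    omega
  have h7 := (Submodule.finrank_quotient_le (span (ZMod 2) (((span (ZMod 2) (id '' ({e} : Set V))).mkQ ∘
    (id : V → V)) '' C))).trans h4
  exact_mod_cast h7

theorem eRank_le_of_iso {α β : Type} {N : Matroid α} {K : Matroid β} (h : Iso N K) :
    N.eRank ≤ K.eRank := by
  obtain ⟨e, he⟩ := h
  obtain ⟨B, hB⟩ := N.exists_isBase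
  rw [← hB.encard_eq_eRank]
  have h1 : B = ((↑) '' {x : N.E | (x : α) ∈ B} : Set α) := by
    ext x
    constructor
    · intro hx
      exact ⟨⟨x, hB.subset_ground hx⟩, hx, rfl⟩
    · rintro ⟨y, hy, rfl⟩
      exact hy
  have h2 := (he {x : N.E | (x : α) ∈ B}).1 (h1 ▸ hB.indep)
  have h3 := h2.encard_le_eRank
  rw [Subtype.val_injective.encard_image, e.injective.encard_image,
    ← Subtype.val_injective.encard_image, ← h1] at h3
  exact h3

theorem encard_of_iso {α β : Type} {N : Matroid α} {K : Matroid β} (h : Iso N K) :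
    N.E.encard = K.E.encard := by
  obtain ⟨e, -⟩ := h
  exact Set.encard_congr e

theorem fact_star : ∀ g : Fin 4 → ZMod 2,
    ∑ i, g i • (std (ZMod 2) 5 0 - std (ZMod 2) 5 i.succ) = 0 → ∀ i, g i = 0 := by
  have h : ∀ g : Fin 4 → ZMod 2, (∀ j : Fin 5, ∑ i : Fin 4, g i * ((if j = 0 then 1 else 0) -
      (if j = i.succ then 1 else 0)) = 0) → ∀ i, g i = 0 := by
    decide +kernel
  intro g hg
  apply h
  intro j
  have h1 := congrFun hg j
  rw [Finset.sum_apply] at h1
  refine Eq.trans ?_ h1
  refine Finset.sum_congr rfl fun i _ => ?_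
  simp only [std, Pi.smul_apply, Pi.sub_apply, smul_eq_mul, Pi.single_apply]

theorem cyc_rank : 4 ≤ (cyc (ZMod 2) 5).eRank := by
  have hfin : (cyc (ZMod 2) 5).Finite := ⟨Set.toFinite _⟩
  have hrep : Rep (ZMod 2) (cyc (ZMod 2) 5) (diffVec (std (ZMod 2) 5)) := linMatroid_rep _ _ _
  have h1 : 4 ≤ rk (cyc (ZMod 2) 5) (cyc (ZMod 2) 5).E := by
    rw [hrep.rk_eq Subset.rfl]
    have hli : LinearIndependent (ZMod 2)
        (fun i : Fin 4 => std (ZMod 2) 5 0 - std (ZMod 2) 5 i.succ) := by
      rw [Fintype.linearIndependent_iff]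
      exact fact_star
    have h2 := finrank_span_eq_card hli
    rw [Fintype.card_fin] at h2
    rw [← h2]
    apply Submodule.finrank_mono
    rw [span_le]
    rintro _ ⟨i, rfl⟩
    have h3 : diffVec (std (ZMod 2) 5) s(0, i.succ) ∈
        span (ZMod 2) (diffVec (std (ZMod 2) 5) '' (cyc (ZMod 2) 5).E) := by
      refine subset_span ⟨_, ?_, rfl⟩
      change s(0, i.succ) ∈ (⊤ : SimpleGraph (Fin 5)).edgeSet
      rw [SimpleGraph.mem_edgeSet, SimpleGraph.top_adj]
      exact (Fin.succ_ne_zero i).symm
    exact (diffVec_mem_iff _ _ _ _).1 h3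
  have h4 : (rk (cyc (ZMod 2) 5) (cyc (ZMod 2) 5).E : ℕ∞) ≤ (cyc (ZMod 2) 5).eRank := by
    rw [rk, Matroid.eRk_ground]
    exact ENat.natCast_toNat_le_self _
  exact le_trans (by exact_mod_cast h1) h4

theorem no_K5 : ¬ HasK5DualRestrictedMinor M₀ := by
  rintro ⟨N, K, hN, hK, hiso⟩
  have hKeq : K = cyc (ZMod 2) 5 := by
    have h2 := cyc_isCompleteGraphMatroid (ZMod 2) 5
    apply Matroid.ext_indep
    · rw [hK.1, h2.1]
    · intro I hI
      rw [hK.2 I hI, h2.2 I (by rw [h2.1, ← hK.1]; exact hI)]
  have hKE : K.E.encard = 10 := by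
    rw [hK.1]
    have h1 : ((⊤ : SimpleGraph (Fin 5)).edgeSet) =
        ((⊤ : SimpleGraph (Fin 5)).edgeFinset : Set (Sym2 (Fin 5))) := by
      simp
    rw [h1, Set.encard_coe_eq_coe_finsetCard, SimpleGraph.card_edgeFinset_top_eq_card_choose_two]
    rfl
  have hNE : N.E.encard = 10 := by
    rw [encard_of_iso hiso]
    exact hKE
  by_cases hne : N = M₀
  · rw [hne, M₀_E, Set.encard_coe_eq_coe_finsetCard, fact_card] at hNE
    exact absurd hNE (by decide)
  · have h1 := dual_rank hN hne
    have h2 := N.eRank_add_eRank_dual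
    have h3 := K.eRank_add_eRank_dual
    have h4 := eRank_le_of_iso hiso
    have h5 : 4 ≤ K.eRank := by
      rw [hKeq]
      exact cyc_rank
    rw [hNE] at h2
    rw [hKE] at h3
    -- all ranks are finite
    have f1 : N.eRank ≠ ⊤ := by
      intro h
      rw [h, top_add] at h2
      exact absurd h2 (by decide)
    have f2 : N✶.eRank ≠ ⊤ := by
      intro h
      rw [h, add_top] at h2
      exact absurd h2 (by decide)
    have f3 : K.eRank ≠ ⊤ := by
      intro h
      rw [h, top_add] at h3
      exact absurd h3 (by decide)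
    have f4 : K✶.eRank ≠ ⊤ := by
      intro h
      rw [h, add_top] at h3
      exact absurd h3 (by decide)
    lift N.eRank to ℕ using f1 with a
    lift N✶.eRank to ℕ using f2 with b
    lift K.eRank to ℕ using f3 with c
    lift K✶.eRank to ℕ using f4 with d
    have g1 : b ≤ 3 := by exact_mod_cast h1
    have g2 : a + b = 10 := by exact_mod_cast h2
    have g3 : c + d = 10 := by exact_mod_cast h3
    have g4 : a ≤ d := by exact_mod_cast h4
    have g5 : 4 ≤ c := by exact_mod_cast h5
    omega

/-! ### The cycle ideal -/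

/-- the sign of the bilinear form -/
def sgn (e u : V) : ℤ := if dot e u = 1 then -1 else 1

theorem fact_orth : ∀ u w : V, ∑ e, sgn e u * sgn e w = if u = w then 16 else 0 := by
  decide +kernel

theorem fact_pos : (Finset.univ.filter fun u : V => sgn p₀ u = 1).card = 8 := by
  decide +kernel

theorem fact_neg : (Finset.univ.filter fun u : V => sgn p₀ u = -1).card = 8 := by
  decide +kernel

theorem sgn_cases (e u : V) : sgn e u = 1 ∨ sgn e u = -1 := by
  rw [sgn]
  split_ifs
  · exact Or.inr rfl
  · exact Or.inl rfl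

/-- Two different families of at most seven cycles do not have the same sum. -/
theorem comb (a b : V → ℕ) (h0 : ∑ u, a u = ∑ u, b u)
    (h1 : ∀ e ∈ pts, ∑ u, (if e ∈ D u then a u else 0) = ∑ u, (if e ∈ D u then b u else 0))
    (ha : ∑ u, a u ≤ 7) (_hb : ∑ u, b u ≤ 7) : a = b := by
  set z : V → ℤ := fun u => (a u : ℤ) - b u with hz
  have hz0 : ∑ u, z u = 0 := by
    simp only [hz, Finset.sum_sub_distrib]
    rw [sub_eq_zero]
    exact_mod_cast h0
  have hw : ∀ e, e ≠ p₀ → ∑ u, sgn e u * z u = 0 := by
    intro e he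
    by_cases he0 : e = 0
    · subst he0
      rw [← hz0]
      refine Finset.sum_congr rfl fun u _ => ?_
      have : sgn 0 u = 1 := by
        rw [sgn, if_neg]
        simp [dot]
      rw [this, one_mul]
    · have hp : e ∈ pts := mem_pts.2 ⟨he0, he⟩
      have h2 : ∑ u, (if e ∈ D u then z u else 0) = 0 := by
        have h3 := h1 e hp
        have h4 : ∑ u, (if e ∈ D u then z u else 0) =
            ((∑ u, (if e ∈ D u then a u else 0) : ℕ) : ℤ) -
              ((∑ u, (if e ∈ D u then b u else 0) : ℕ) : ℤ) := by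
          push_cast
          rw [← Finset.sum_sub_distrib]
          refine Finset.sum_congr rfl fun u _ => ?_
          split_ifs
          · rfl
          · simp
        rw [h4, h3, sub_self]
      have h5 : ∀ u, sgn e u * z u = z u - 2 * (if e ∈ D u then z u else 0) := by
        intro u
        by_cases hd : dot e u = 1
        · rw [sgn, if_pos hd, if_pos (mem_D.2 ⟨hp, hd⟩)]
          ring
        · rw [sgn, if_neg hd, if_neg (fun h => hd (mem_D.1 h).2)]
          ring
      rw [Finset.sum_congr rfl fun u _ => h5 u, Finset.sum_sub_distrib, ← Finset.mul_sum, h2, hz0]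
      ring
  -- Fourier inversion
  have hinv : ∀ w, 16 * z w = sgn p₀ w * ∑ u, sgn p₀ u * z u := by
    intro w
    have h2 : 16 * z w = ∑ u, (∑ e, sgn e u * sgn e w) * z u := by
      have h3 : ∀ u, (∑ e, sgn e u * sgn e w) * z u = if u = w then 16 * z u else 0 := by
        intro u
        rw [fact_orth]
        split_ifs <;> simp
      rw [Finset.sum_congr rfl fun u _ => h3 u, Finset.sum_ite_eq' Finset.univ w,
        if_pos (Finset.mem_univ _)]
    have h4 : ∑ u, (∑ e, sgn e u * sgn e w) * z u = ∑ e, sgn e w * ∑ u, sgn e u * z u := by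
      simp only [Finset.sum_mul, Finset.mul_sum]
      rw [Finset.sum_comm]
      refine Finset.sum_congr rfl fun e _ => Finset.sum_congr rfl fun u _ => ?_
      ring
    rw [h2, h4, Finset.sum_eq_single p₀]
    · intro e _ he
      rw [hw e he, mul_zero]
    · intro h
      exact absurd (Finset.mem_univ _) h
  have hsgn0 : sgn p₀ 0 = 1 := by decide
  have hc : ∀ w, z w = sgn p₀ w * z 0 := by
    intro w
    have h2 := hinv w
    have h3 := hinv 0
    rw [hsgn0, one_mul] at h3
    rw [← h3] at h2
    linarith
  have hzero : z 0 = 0 := by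
    rcases lt_trichotomy (z 0) 0 with h | h | h
    · exfalso
      have h2 : ∀ u ∈ Finset.univ.filter (fun u : V => sgn p₀ u = -1), 1 ≤ a u := by
        intro u hu
        rw [Finset.mem_filter] at hu
        have h3 := hc u
        rw [hu.2] at h3
        have h4 : z u = (a u : ℤ) - b u := rfl
        omega
      have h3 : (Finset.univ.filter (fun u : V => sgn p₀ u = -1)).card • 1 ≤
          ∑ u ∈ Finset.univ.filter (fun u : V => sgn p₀ u = -1), a u :=
        Finset.card_nsmul_le_sum _ _ _ h2
      rw [fact_neg, smul_eq_mul, mul_one] at h3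
      have h4 : ∑ u ∈ Finset.univ.filter (fun u : V => sgn p₀ u = -1), a u ≤ ∑ u, a u :=
        Finset.sum_le_sum_of_subset (Finset.filter_subset _ _)
      exact absurd (h3.trans (h4.trans ha)) (by norm_num)
    · exact h
    · exfalso
      have h2 : ∀ u ∈ Finset.univ.filter (fun u : V => sgn p₀ u = 1), 1 ≤ a u := by
        intro u hu
        rw [Finset.mem_filter] at hu
        have h3 := hc u
        rw [hu.2] at h3
        have h4 : z u = (a u : ℤ) - b u := rfl
        omega
      have h3 : (Finset.univ.filter (fun u : V => sgn p₀ u = 1)).card • 1 ≤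
          ∑ u ∈ Finset.univ.filter (fun u : V => sgn p₀ u = 1), a u :=
        Finset.card_nsmul_le_sum _ _ _ h2
      rw [fact_pos, smul_eq_mul, mul_one] at h3
      have h4 : ∑ u ∈ Finset.univ.filter (fun u : V => sgn p₀ u = 1), a u ≤ ∑ u, a u :=
        Finset.sum_le_sum_of_subset (Finset.filter_subset _ _)
      exact absurd (h3.trans (h4.trans ha)) (by norm_num)
  ext u
  have h2 := hc u
  rw [hzero, mul_zero] at h2
  have h4 : z u = (a u : ℤ) - b u := rfl
  omega

theorem fact_inj : ∀ u w : V, D u = D w → u = w := by decide +kernel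

/-- the cycle of a vector -/
def cyc' (u : V) : {X : Finset V // IsCycle M₀ X} := ⟨D u, isCycle_iff.2 ⟨u, rfl⟩⟩

theorem cyc'_bijective : Function.Bijective cyc' := by
  constructor
  · intro u w h
    exact fact_inj u w (congrArg Subtype.val h)
  · rintro ⟨X, hX⟩
    obtain ⟨u, rfl⟩ := isCycle_iff.1 hX
    exact ⟨u, rfl⟩

/-- the vectors correspond to the cycles -/
noncomputable def cycEquiv : V ≃ {X : Finset V // IsCycle M₀ X} :=
  Equiv.ofBijective cyc' cyc'_bijective

theorem cycEquiv_apply (u : V) : (cycEquiv u).1 = D u := rfl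

noncomputable instance : Fintype {X : Finset V // IsCycle M₀ X} := Fintype.ofEquiv V cycEquiv

/-- the exponent of the image of a variable -/
noncomputable def ψ (X : {X : Finset V // IsCycle M₀ X}) : Option V →₀ ℕ :=
  Finsupp.single none 1 + ∑ e ∈ X.1, Finsupp.single (some e) 1

theorem ψ_none (X : {X : Finset V // IsCycle M₀ X}) : ψ X none = 1 := by
  simp [ψ]

theorem ψ_some (X : {X : Finset V // IsCycle M₀ X}) (e : V) :
    ψ X (some e) = if e ∈ X.1 then 1 else 0 := by
  simp [ψ, Finsupp.single_apply]

variable (K : Type) [Field K]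

theorem image_var (X : {X : Finset V // IsCycle M₀ X}) :
    (MvPolynomial.X none * ∏ e ∈ X.1, MvPolynomial.X (some e) : MvPolynomial (Option V) K) =
      MvPolynomial.monomial (ψ X) 1 := by
  have h : (∏ e ∈ X.1, MvPolynomial.X (some e) : MvPolynomial (Option V) K) =
      MvPolynomial.monomial (∑ e ∈ X.1, Finsupp.single (some e) 1) 1 := by
    rw [MvPolynomial.monomial_sum_one]
    rfl
  rw [h, MvPolynomial.X, MvPolynomial.monomial_mul, one_mul]
  rfl

/-- the exponent of the image of a monomial -/
noncomputable def Φ (m : {X : Finset V // IsCycle M₀ X} →₀ ℕ) : Option V →₀ ℕ :=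
  ∑ X, m X • ψ X

theorem Φ_inj {m m' : {X : Finset V // IsCycle M₀ X} →₀ ℕ} (h : Φ m = Φ m')
    (hm : m.degree ≤ 7) (hm' : m'.degree ≤ 7) : m = m' := by
  have hnone : ∀ m : {X : Finset V // IsCycle M₀ X} →₀ ℕ, Φ m none = ∑ u, m (cycEquiv u) := by
    intro m
    rw [Φ, Finsupp.finsetSum_apply, Equiv.sum_comp cycEquiv (fun X => m X)]
    refine Finset.sum_congr rfl fun X _ => ?_
    rw [Finsupp.smul_apply, ψ_none, smul_eq_mul, mul_one]
  have hsome : ∀ (m : {X : Finset V // IsCycle M₀ X} →₀ ℕ) (e : V), Φ m (some e) =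
      ∑ u, if e ∈ D u then m (cycEquiv u) else 0 := by
    intro m e
    rw [Φ, Finsupp.finsetSum_apply, ← Equiv.sum_comp cycEquiv]
    refine Finset.sum_congr rfl fun u _ => ?_
    rw [Finsupp.smul_apply, ψ_some, cycEquiv_apply]
    split_ifs <;> simp
  have hdeg : ∀ m : {X : Finset V // IsCycle M₀ X} →₀ ℕ, m.degree = ∑ u, m (cycEquiv u) := by
    intro m
    rw [Finsupp.degree_eq_sum, ← Equiv.sum_comp cycEquiv]
  have h1 := comb (fun u => m (cycEquiv u)) (fun u => m' (cycEquiv u))
    (by rw [← hnone, ← hnone, h])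
    (fun e _ => by rw [← hsome, ← hsome, h])
    (by rw [← hdeg]; exact hm) (by rw [← hdeg]; exact hm')
  ext X
  obtain ⟨u, rfl⟩ := cycEquiv.surjective X
  exact congrFun h1 u

/-- the homomorphism of the cycle ideal maps monomials to monomials -/
theorem aeval_eq (f : MvPolynomial {X : Finset V // IsCycle M₀ X} K) :
    MvPolynomial.aeval (R := K) (fun X : {X : Finset V // IsCycle M₀ X} =>
      (MvPolynomial.X none * ∏ e ∈ X.1, MvPolynomial.X (some e) : MvPolynomial (Option V) K)) f =
      ∑ m ∈ f.support, MvPolynomial.monomial (Φ m) (f.coeff m) := by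
  simp only [image_var]
  rw [MvPolynomial.aeval_def, MvPolynomial.eval₂_eq']
  refine Finset.sum_congr rfl fun m _ => ?_
  simp only [MvPolynomial.monomial_pow, one_pow]
  rw [← MvPolynomial.monomial_sum_one, MvPolynomial.algebraMap_eq, MvPolynomial.C_mul_monomial,
    mul_one]
  rfl

theorem eq_zero_of_mem {f : MvPolynomial {X : Finset V // IsCycle M₀ X} K}
    (hf : f ∈ cycleIdeal K M₀) (hdeg : f.totalDegree ≤ 7) : f = 0 := by
  classical
  rw [cycleIdeal, RingHom.mem_ker] at hf
  have hf' := (aeval_eq K f).symm.trans hf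
  ext m
  rw [MvPolynomial.coeff_zero]
  by_contra hne
  have hm : m ∈ f.support := MvPolynomial.mem_support_iff.2 hne
  have h1 := congrArg (MvPolynomial.coeff (Φ m)) hf'
  rw [MvPolynomial.coeff_zero, MvPolynomial.coeff_sum, Finset.sum_eq_single m] at h1
  · rw [MvPolynomial.coeff_monomial, if_pos rfl] at h1
    exact hne h1
  · intro m' hm' hne'
    rw [MvPolynomial.coeff_monomial, if_neg]
    intro h2
    apply hne'
    apply Φ_inj h2
    · exact (MvPolynomial.le_totalDegree hm').trans hdeg
    · exact (MvPolynomial.le_totalDegree hm).trans hdeg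
  · intro h
    exact absurd hm h

/-! ### A nonzero element -/

/-- the vectors of one sign -/
def half (ε : ℤ) : Finset V := Finset.univ.filter fun u => sgn p₀ u = ε

theorem fact_half : (half 1).card = (half (-1)).card := by decide +kernel

theorem fact_count : ∀ e : V, e ∈ pts →
    ((half 1).filter fun u => e ∈ D u).card = ((half (-1)).filter fun u => e ∈ D u).card := by
  decide +kernel

theorem fact_zero_mem : (0 : V) ∈ half 1 ∧ (0 : V) ∉ half (-1) := by decide +kernel

/-- the product of the variables of one sign -/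
noncomputable def prodVar (ε : ℤ) : MvPolynomial {X : Finset V // IsCycle M₀ X} K :=
  ∏ u ∈ half ε, MvPolynomial.X (cycEquiv u)

theorem image_prodVar (ε : ℤ) : MvPolynomial.aeval (R := K)
    (fun X : {X : Finset V // IsCycle M₀ X} =>
      (MvPolynomial.X none * ∏ e ∈ X.1, MvPolynomial.X (some e) : MvPolynomial (Option V) K))
      (prodVar K ε) = MvPolynomial.monomial (∑ u ∈ half ε, ψ (cycEquiv u)) 1 := by
  rw [prodVar, map_prod, MvPolynomial.monomial_sum_one]
  refine Finset.prod_congr rfl fun u _ => ?_
  rw [MvPolynomial.aeval_X, image_var]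

theorem exponent_eq : ∑ u ∈ half 1, ψ (cycEquiv u) = ∑ u ∈ half (-1), ψ (cycEquiv u) := by
  ext x
  rw [Finsupp.finsetSum_apply, Finsupp.finsetSum_apply]
  rcases x with _ | e
  · simp only [ψ_none, Finset.sum_const, smul_eq_mul, mul_one]
    exact fact_half
  · have hψ : ∀ u : V, ψ (cycEquiv u) (some e) = if e ∈ D u then 1 else 0 := by
      intro u
      rw [ψ_some]
      by_cases h : e ∈ D u
      · rw [if_pos h, if_pos]
        rw [cycEquiv_apply]
        exact h
      · rw [if_neg h, if_neg]
        rw [cycEquiv_apply]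
        exact h
    rw [Finset.sum_congr rfl fun u _ => hψ u, Finset.sum_congr rfl fun u _ => hψ u,
      ← Finset.card_filter, ← Finset.card_filter]
    by_cases he : e ∈ pts
    · exact fact_count e he
    · have h : ∀ ε, ((half ε).filter fun u => e ∈ D u) = ∅ := by
        intro ε
        rw [Finset.filter_eq_empty_iff]
        intro u _ hu
        exact he (mem_D.1 hu).1
      rw [h, h]

theorem ideal_ne_bot : cycleIdeal K M₀ ≠ ⊥ := by
  classical
  intro hbot
  have h1 : prodVar K 1 - prodVar K (-1) ∈ cycleIdeal K M₀ := by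
    rw [cycleIdeal, RingHom.mem_ker, map_sub, sub_eq_zero]
    refine (image_prodVar K 1).trans ?_
    refine Eq.trans ?_ (image_prodVar K (-1)).symm
    rw [exponent_eq]
  rw [hbot, Ideal.mem_bot, sub_eq_zero] at h1
  have h2 : ∀ ε, prodVar K ε =
      MvPolynomial.monomial (∑ u ∈ half ε, Finsupp.single (cycEquiv u) 1) 1 := by
    intro ε
    rw [prodVar, MvPolynomial.monomial_sum_one]
    rfl
  rw [h2, h2] at h1
  have h3 := (MvPolynomial.monomial_left_inj (R := K) one_ne_zero).1 h1
  have h4 := DFunLike.congr_fun h3 (cycEquiv 0)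
  rw [Finsupp.finsetSum_apply, Finsupp.finsetSum_apply] at h4
  simp only [Finsupp.single_apply, EmbeddingLike.apply_eq_iff_eq] at h4
  rw [Finset.sum_ite_eq', Finset.sum_ite_eq', if_pos fact_zero_mem.1,
    if_neg fact_zero_mem.2] at h4
  exact absurd h4 (by decide)

/-- **A connected simple and cosimple binary matroid without `M(K_5)^*`-restricted minor whose cycle
ideal is not generated in degree at most 7.** -/
theorem result : ∃ (α : Type) (_ : Fintype α) (_ : DecidableEq α) (M : Matroid α),
    Representable (ZMod 2) M ∧ IsConnected M ∧ IsSimple M ∧ IsSimple M✶ ∧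
      ¬ HasK5DualRestrictedMinor M ∧ ∀ (K : Type) [Field K], 8 ≤ mu K M := by
  refine ⟨V, inferInstance, inferInstance, M₀, representable_of_rep M₀_rep, connected, M₀_simple,
    ?_, no_K5, ?_⟩
  · rw [M₀, Matroid.dual_dual]
    exact N₀_simple
  · intro K _
    refine le_iInf₂ fun d hd => ?_
    obtain ⟨G, hG, hspan⟩ := hd
    by_contra hlt
    have hd7 : d ≤ 7 := by
      have h1 : (d : ℕ∞) < ((8 : ℕ) : ℕ∞) := lt_of_not_ge hlt
      have h2 : d < 8 := by exact_mod_cast h1
      omega
    apply ideal_ne_bot K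
    rw [← hspan, Ideal.span_eq_bot]
    intro g hg
    obtain ⟨i, hi, hgi⟩ := hG g hg
    apply eq_zero_of_mem K
    · rw [← hspan]
      exact Ideal.subset_span hg
    · exact (hgi.totalDegree_le).trans (hi.trans hd7)

end Pool.Agent.Results.MP_1f7bca_co.PuncturedSpace
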